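import Pool.Agent.W78.GA.T2

/-!
Project GT (helper78): exact squarefreeness. `μ(n^2+tn+c)` takes both signs for every good
discriminant `t^2-4c` (both signs of the discriminant), in the language of triples `(d, n, d')`,
`d d' = n^2+tn+c`. Definitions and statements.
-/

set_option autoImplicit false

namespace Pool.Agent.W78.GT

open Finset Filter
open Pool.Agent.H376R2.MR (lam)

/-- the polynomial -/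
def Qp (t c n : ℤ) : ℤ := n ^ 2 + t * n + c

/-- good discriminants: not a square, and no value of the polynomial is divisible by `l^2` if the
prime `l` is `2` or divides the discriminant. (Discriminant `5 mod 8`, or `8, 12 mod 16`, and no
odd square divisor.) -/
structure Good (t c : ℤ) : Prop where
  nsq : ¬ IsSquare (t ^ 2 - 4 * c)
  good : ∀ l : ℕ, l.Prime → (l : ℤ) ∣ 2 * (t ^ 2 - 4 * c) → ∀ n : ℤ, ¬ (l : ℤ) ^ 2 ∣ Qp t c n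

/-- a triple `(d, n, d')` -/
abbrev Tr := ℕ × ℤ × ℕ

/-- the product `d d'` -/
def NT (e : Tr) : ℕ := e.1 * e.2.2

/-- the two vertices of a triple: `(d, n mod d)` and `(d', n mod d')` -/
def vx (e : Tr) : ℕ × ℤ := (e.1, e.2.1 % (e.1 : ℤ))

/-- see `vx` -/
def vy (e : Tr) : ℕ × ℤ := (e.2.2, e.2.1 % (e.2.2 : ℤ))

/-- bound for `n` in the triples -/
noncomputable def bt (t c : ℤ) (X₁ X₂ : ℝ) : ℤ :=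
  |t| + |c| + ((⌊X₁⌋₊ : ℤ) + 1) * ((⌊X₂⌋₊ : ℤ) + 1)

/-- the triples `(d, n, d')` with `d d' = n^2+tn+c`, `0 ≤ 2n+t`, `1 ≤ d ≤ X₁`, `1 ≤ d' ≤ X₂` -/
noncomputable def tri (t c : ℤ) (X₁ X₂ : ℝ) : Finset Tr :=
  ((Icc 1 ⌊X₁⌋₊) ×ˢ ((Icc (-(bt t c X₁ X₂)) (bt t c X₁ X₂)) ×ˢ (Icc 1 ⌊X₂⌋₊))).filter
    (fun e => (e.1 : ℤ) * e.2.2 = Qp t c e.2.1 ∧ 0 ≤ 2 * e.2.1 + t)

/-- the roots `(d, r)`: `d ∣ r^2+tr+c`, `0 ≤ r < d`, `1 ≤ d ≤ Y` -/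
noncomputable def rts (t c : ℤ) (Y : ℝ) : Finset (ℕ × ℤ) :=
  ((Icc 1 ⌊Y⌋₊) ×ˢ (Ico (0 : ℤ) (⌊Y⌋₊ + 1))).filter
    (fun e => (e.1 : ℤ) ∣ Qp t c e.2 ∧ e.2 < e.1)

/-- split primes -/
def Spl (t c : ℤ) (p : ℕ) : Prop :=
  p.Prime ∧ ¬ (p : ℤ) ∣ 2 * (t ^ 2 - 4 * c) ∧ ∃ r : ℤ, (p : ℤ) ∣ Qp t c r

/-- the excess `Ω - ω`: zero exactly for squarefree numbers -/
def exc (m : ℕ) : ℕ :=
  ArithmeticFunction.cardFactors m - ArithmeticFunction.cardDistinctFactors m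

open scoped Classical in
/-- the product of the squares of the split primes `≤ z` -/
noncomputable def mz (t c : ℤ) (z : ℕ) : ℕ :=
  ∏ l ∈ (range (z + 1)).filter (fun l => Spl t c l), l ^ 2

/-- `A + (2n+t) q + q^2 B` -/
def MM (t : ℤ) (A n B q : ℤ) : ℤ := A + (2 * n + t) * q + q ^ 2 * B

/-- four times the absolute value of the discriminant -/
def D4 (t c : ℤ) : ℕ := 4 * (t ^ 2 - 4 * c).natAbs

/-- congruence of triples modulo `M` -/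
def Cg (M : ℕ) (e f : Tr) : Prop :=
  (M : ℤ) ∣ (e.1 : ℤ) - f.1 ∧ (M : ℤ) ∣ e.2.1 - f.2.1 ∧ (M : ℤ) ∣ (e.2.2 : ℤ) - f.2.2

/-! ### Statements -/

/-- REP: reduction theory, uniformly in the sign of the discriminant: every triple is
`F ∘ (v, u)`, `det (v, u) = 1`, for one of finitely many binary quadratic forms
`F = a X^2 + b XY + c' Y^2` of discriminant `t^2-4c`, with `v^2 ≤ C d`, `u^2 ≤ C d'`. -/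
def S_REP (t c : ℤ) : Prop := ∃ C : ℕ, 1 ≤ C ∧ ∀ (d : ℕ) (n : ℤ) (d' : ℕ), 1 ≤ d → 1 ≤ d' →
  (d : ℤ) * d' = Qp t c n → ∃ a b c' v₁ v₂ u₁ u₂ : ℤ, |a| ≤ C ∧ |b| ≤ C ∧ |c'| ≤ C ∧
    b ^ 2 - 4 * a * c' = t ^ 2 - 4 * c ∧ v₁ * u₂ - v₂ * u₁ = 1 ∧
    v₁ ^ 2 + v₂ ^ 2 ≤ C * d ∧ u₁ ^ 2 + u₂ ^ 2 ≤ C * d' ∧
    a * v₁ ^ 2 + b * v₁ * v₂ + c' * v₂ ^ 2 = d ∧ a * u₁ ^ 2 + b * u₁ * u₂ + c' * u₂ ^ 2 = d' ∧
    2 * a * v₁ * u₁ + b * (v₁ * u₂ + v₂ * u₁) + 2 * c' * v₂ * u₂ = 2 * n + t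

/-- EQUT: upper bound for the number of triples in a residue class -/
def S_EQUT (t c : ℤ) : Prop := ∃ C : ℝ, 0 < C ∧ ∀ A : ℕ, ∃ X₀ : ℝ, ∀ (X X₁ X₂ : ℝ) (M : ℕ)
  (f : Tr), X₀ ≤ X → 1 ≤ X₁ → 1 ≤ X₂ → X₁ * X₂ ≤ X ^ 2 → X₁ ≤ X * Real.log X ^ A →
  X₂ ≤ X * Real.log X ^ A → 1 ≤ M → (M : ℝ) ≤ Real.log X ^ A →
  (∀ p : ℕ, p.Prime → p ∣ M → Spl t c p) →
  (open scoped Classical in
    (((tri t c X₁ X₂).filter (fun e => Cg M e f)).card : ℝ)) ≤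
    C * X * (Nat.totient M : ℝ) / (M : ℝ) ^ 3

/-- ROOT: the number of roots -/
def S_ROOT (t c : ℤ) : Prop := ∃ C : ℝ, 0 < C ∧ ∀ Y : ℝ, 0 ≤ Y → ((rts t c Y).card : ℝ) ≤ C * Y

/-- MERT: the upper half of Mertens' theorem for the roots modulo primes -/
def S_MERT (t c : ℤ) : Prop := ∃ C : ℝ, ∀ y : ℕ, 3 ≤ y →
  ∑ e ∈ (rts t c y).filter (fun e => e.1.Prime), 1 / (e.1 : ℝ) ≤ Real.log (Real.log y) + C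

/-- VET: from vertices to triples -/
def S_VET (t c : ℤ) : Prop := ∃ C : ℝ, 0 < C ∧ ∀ (κ X : ℝ) (V : Finset (ℕ × ℤ)), 0 < κ → κ ≤ 1 →
  1 ≤ X → V ⊆ rts t c X → (open scoped Classical in
    (((tri t c X X).filter (fun e => vx e ∈ V ∨ vy e ∈ V)).card : ℝ)) ≤
      C * (κ * X + (V.card : ℝ) / κ)

/-- SIFTT: few roots without divisors from a finite set of primes `≡ 1 mod 4D` with large
reciprocal sum -/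
def S_SIFTT (t c : ℤ) : Prop := ∃ C : ℝ, 0 < C ∧ ∀ Q : Finset ℕ,
  (∀ q ∈ Q, q.Prime ∧ q ≡ 1 [MOD D4 t c]) → ∃ X₀ : ℝ, ∀ X : ℝ, X₀ ≤ X →
    (((rts t c X).filter (fun e => ∀ q ∈ Q, ¬ q ∣ e.1)).card : ℝ) ≤
      C * (∏ q ∈ Q, (1 - 1 / (q : ℝ))) * X

/-- TYPT: a typical `d` has at most `(1+ε) log log X` prime factors -/
def S_TYPT (t c : ℤ) : Prop := ∀ ε δ : ℝ, 0 < ε → 0 < δ → ∃ X₀ : ℝ, ∀ X : ℝ, X₀ ≤ X →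
  (((rts t c X).filter (fun e =>
    (1 + ε) * Real.log (Real.log X) < ((e.1.primeFactors.card : ℕ) : ℝ))).card : ℝ) ≤ δ * X

/-- LARGET: few triples for which `d d'` is divisible by the square of a large prime -/
def S_LARGET (t c : ℤ) : Prop := ∃ A : ℕ, ∀ δ : ℝ, 0 < δ → ∃ X₀ : ℝ, ∀ X : ℝ, X₀ ≤ X →
  (open scoped Classical in
    (((tri t c X X).filter (fun e => ∃ l : ℕ, l.Prime ∧ Real.log X ^ A < (l : ℝ) ∧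
      l ^ 2 ∣ NT e)).card : ℝ)) ≤ δ * X

/-- SQT: few triples for which `d d'` is divisible by the square of a prime `> z` -/
def S_SQT (t c : ℤ) : Prop := ∃ C : ℝ, 0 < C ∧ ∀ z : ℕ, 2 ≤ z → ∃ X₀ : ℝ, ∀ X : ℝ, X₀ ≤ X →
  (open scoped Classical in
    (((tri t c X X).filter (fun e => ∃ l : ℕ, l.Prime ∧ z < l ∧ l ^ 2 ∣ NT e)).card : ℝ)) ≤
    C / z * X

/-- LOCT: a good residue class for the auxiliary prime `q` -/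
def S_LOCT (t c : ℤ) : Prop := ∀ z : ℕ, ∃ cl : ℤ → ℤ → ℤ → ℕ,
  (∀ A n B : ℤ, cl A n B ≡ 1 [MOD D4 t c] ∧ Nat.Coprime (cl A n B) (mz t c z)) ∧
  (∀ A n B A' n' B' : ℤ, A ≡ A' [ZMOD mz t c z] → n ≡ n' [ZMOD mz t c z] →
    B ≡ B' [ZMOD mz t c z] → cl A n B = cl A' n' B') ∧
  (∀ A n B : ℤ, A * B = Qp t c n → ∀ q : ℕ, q ≡ cl A n B [MOD D4 t c * mz t c z] →
    ∀ l : ℕ, Spl t c l → l ≤ z →
      ¬ ((l : ℤ) ∣ MM t A n B q ∧ ((l : ℤ) ∣ A * B ∨ (l : ℤ) ^ 2 ∣ MM t A n B q)))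

/-- EXC2T: few triples for which the resolution by a candidate `q` is bad at a prime `> z` -/
def S_EXC2T (t c : ℤ) : Prop := ∃ C : ℝ, 0 < C ∧ ∀ (z : ℕ) (S : ℝ) (Q : Tr → Finset ℕ),
  5 ≤ z → 1 ≤ S → (∀ e f : Tr, Cg (mz t c z) e f → Q e = Q f) →
  (∀ e : Tr, ∀ q ∈ Q e, q.Prime ∧ q ≡ 1 [MOD D4 t c] ∧ z ^ 2 < q) →
  (∀ e : Tr, ∑ q ∈ Q e, 1 / (q : ℝ) ≤ S) →
  ∀ A : ℕ, ∃ X₀ : ℝ, ∀ X X₁ X₂ : ℝ, X₀ ≤ X → 1 ≤ X₁ → 1 ≤ X₂ → X₁ * X₂ ≤ X ^ 2 →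
  X₁ ≤ X * Real.log X → X₂ ≤ X * Real.log X →
  ∀ p : ℕ, (p = 1 ∨ (Spl t c p ∧ p ≤ z)) →
  (open scoped Classical in
    (((tri t c X₁ X₂).filter (fun e => (p ∣ e.1 ∧ p ∣ e.2.2) ∧
      ∃ q ∈ Q e, q ∣ e.1 ∧ ∃ l : ℕ, Spl t c l ∧ z < l ∧ (l : ℝ) ≤ Real.log X ^ A ∧
        ∃ x : ℤ, (q : ℤ) * x = MM t e.1 e.2.1 e.2.2 q ∧ (l : ℤ) ∣ x ∧
          (l ∣ NT e ∨ (l : ℤ) ^ 2 ∣ x))).card : ℝ)) ≤
    C * S / (z * Real.log z) * X / (p : ℝ) ^ 2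

/-- REST: the resolution. For most triples `e` there are two triples `F₁ e`, `F₂ e` with
`λ(NT (F₁ e)) λ(NT (F₂ e)) = λ(NT e)` and smaller excess. -/
def S_REST (t c : ℤ) : Prop := ∀ δ : ℝ, 0 < δ → ∃ (Q : ℝ) (D : ℕ) (X₀ : ℝ), 1 ≤ Q ∧ ∀ X : ℝ,
  X₀ ≤ X → ∃ (E : Finset Tr) (F₁ F₂ : Tr → Tr), (E.card : ℝ) ≤ δ * X ∧
    (∀ e ∈ tri t c X X, e ∉ E → F₁ e ∈ tri t c (Q * X) (Q * X) ∧
      F₂ e ∈ tri t c (Q * X) (Q * X) ∧ lam (NT (F₁ e)) * lam (NT (F₂ e)) = lam (NT e) ∧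
      exc (NT (F₁ e)) ≤ exc (NT e) - 1 ∧ exc (NT (F₂ e)) ≤ exc (NT e) - 1) ∧
    (open scoped Classical in
      ∀ f : Tr, ((tri t c X X).filter (fun e => e ∉ E ∧ F₁ e = f)).card ≤ D ∧
        ((tri t c X X).filter (fun e => e ∉ E ∧ F₂ e = f)).card ≤ D)

open scoped Classical in
/-- triples with excess at most `k` and sign `s` -/
noncomputable def Bk (t c : ℤ) (k : ℕ) (s : ℤ) (X : ℝ) : Finset Tr :=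
  (tri t c X X).filter (fun e => exc (NT e) ≤ k ∧ lam (NT e) = s)

/-- START: the input from the Matomaki-Radziwill theorem -/
def S_START (t c : ℤ) : Prop := ∃ k : ℕ, ∃ κ : ℝ, 0 < κ ∧ ∃ X₀ : ℝ, ∀ X : ℝ, X₀ ≤ X →
  κ * X ≤ ((Bk t c k (-1) X).card : ℝ)

/-- FINT: the final statement -/
def S_FINT (t c : ℤ) : Prop := ∀ e : ℤ, e = 1 ∨ e = -1 →
  (∀ ε : ℝ, 0 < ε → ∃ N₀ : ℕ, ∀ N : ℕ, N₀ ≤ N → (N : ℝ) / Real.log N ^ (2 * Real.log 2 + ε) ≤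
    (Set.ncard {n : ℕ | 1 ≤ n ∧ n ≤ N ∧ ∃ m : ℕ, (n : ℤ) ^ 2 + t * n + c = m ∧
      ArithmeticFunction.moebius m = e} : ℝ)) ∧
  ∃ κ : ℝ, 0 < κ ∧ ∃ N₀ : ℕ, ∀ N : ℕ, N₀ ≤ N → κ * N ≤
    (Set.ncard {p : ℕ × ℕ | 1 ≤ p.1 ∧ p.1 ≤ N ∧ 1 ≤ p.2 ∧ p.2 ≤ N ∧
      (∃ n : ℤ, (p.1 : ℤ) * p.2 = n ^ 2 + t * n + c) ∧
      ArithmeticFunction.moebius (p.1 * p.2) = e} : ℝ)

end Pool.Agent.W78.GT
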