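import Pool.Agent.W78.GT.Defs

/-!
Project GT (helper78): basic facts on triples.
-/

set_option autoImplicit false

namespace Pool.Agent.W78.GT

open Finset Filter
open Pool.Agent.H376R2.MR (lam)

variable {t c : ℤ}

lemma abs_n_le {n P : ℤ} (hP : 0 ≤ P) (h : Qp t c n ≤ P) : |n| ≤ |t| + |c| + P + 1 := by
  by_contra hcon
  push Not at hcon
  have h1 : -|t| * |n| ≤ t * n := by
    have := neg_abs_le (t * n)
    rw [abs_mul] at this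
    linarith
  have h2 := neg_abs_le c
  have h3 : n ^ 2 = |n| * |n| := by rw [abs_mul_abs_self, pow_two]
  have h4 : 0 ≤ |t| := abs_nonneg t
  have h5 : 0 ≤ |c| := abs_nonneg c
  have h6 : 0 ≤ |n| := abs_nonneg n
  unfold Qp at h
  rw [h3] at h
  have h7 : |n| * (|t| + |c| + P + 1) ≤ |n| * |n| := mul_le_mul_of_nonneg_left hcon.le h6
  nlinarith [mul_nonneg h6 h5, mul_nonneg h6 hP]

lemma mem_tri {X₁ X₂ : ℝ} {e : Tr} : e ∈ tri t c X₁ X₂ ↔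
    1 ≤ e.1 ∧ (e.1 : ℝ) ≤ X₁ ∧ 1 ≤ e.2.2 ∧ (e.2.2 : ℝ) ≤ X₂ ∧
      (e.1 : ℤ) * e.2.2 = Qp t c e.2.1 ∧ 0 ≤ 2 * e.2.1 + t := by
  unfold tri
  simp only [mem_filter, mem_product, Finset.mem_Icc]
  constructor
  · rintro ⟨⟨⟨h1, h2⟩, -, h3, h4⟩, h5, h6⟩
    refine ⟨h1, ?_, h3, ?_, h5, h6⟩
    · exact (Nat.le_floor_iff' (by omega)).1 h2
    · exact (Nat.le_floor_iff' (by omega)).1 h4
  · rintro ⟨h1, h2, h3, h4, h5, h6⟩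
    have h2' : e.1 ≤ ⌊X₁⌋₊ := Nat.le_floor h2
    have h4' : e.2.2 ≤ ⌊X₂⌋₊ := Nat.le_floor h4
    refine ⟨⟨⟨h1, h2'⟩, ?_, h3, h4'⟩, h5, h6⟩
    have h7 : (e.1 : ℤ) * e.2.2 ≤ (⌊X₁⌋₊ : ℤ) * ⌊X₂⌋₊ := by
      exact_mod_cast Nat.mul_le_mul h2' h4'
    rw [h5] at h7
    have h8 := abs_n_le (by positivity) h7
    rw [← abs_le]
    unfold bt
    have h9 : (0 : ℤ) ≤ ⌊X₁⌋₊ := by positivity
    have h10 : (0 : ℤ) ≤ ⌊X₂⌋₊ := by positivity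
    nlinarith

lemma mem_rts {Y : ℝ} {e : ℕ × ℤ} : e ∈ rts t c Y ↔
    1 ≤ e.1 ∧ (e.1 : ℝ) ≤ Y ∧ (e.1 : ℤ) ∣ Qp t c e.2 ∧ 0 ≤ e.2 ∧ e.2 < e.1 := by
  unfold rts
  simp only [mem_filter, mem_product, Finset.mem_Icc, Finset.mem_Ico]
  constructor
  · rintro ⟨⟨⟨h1, h2⟩, h3, -⟩, h5, h6⟩
    exact ⟨h1, (Nat.le_floor_iff' (by omega)).1 h2, h5, h3, h6⟩
  · rintro ⟨h1, h2, h3, h4, h5⟩
    have h2' : e.1 ≤ ⌊Y⌋₊ := Nat.le_floor h2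
    refine ⟨⟨⟨h1, h2'⟩, h4, ?_⟩, h3, h5⟩
    have : (e.1 : ℤ) ≤ ⌊Y⌋₊ := by exact_mod_cast h2'
    omega

lemma Qp_congr {n m : ℤ} {d : ℤ} (h : d ∣ n - m) : d ∣ Qp t c n - Qp t c m := by
  have : Qp t c n - Qp t c m = (n - m) * (n + m + t) := by unfold Qp; ring
  rw [this]
  exact Dvd.dvd.mul_right h _

lemma root_mem {d : ℕ} {n : ℤ} {Y : ℝ} (hd : 1 ≤ d) (hdY : (d : ℝ) ≤ Y)
    (h : (d : ℤ) ∣ Qp t c n) : (d, n % (d : ℤ)) ∈ rts t c Y := by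
  rw [mem_rts]
  have hd0 : (0 : ℤ) < d := by exact_mod_cast hd
  refine ⟨hd, hdY, ?_, Int.emod_nonneg _ hd0.ne', Int.emod_lt_of_pos _ hd0⟩
  have h1 : (d : ℤ) ∣ n - n % (d : ℤ) := Int.dvd_self_sub_emod
  have h2 := Qp_congr (t := t) (c := c) h1
  have := dvd_sub h h2
  simpa using this

lemma vx_mem {X₁ X₂ : ℝ} {e : Tr} (he : e ∈ tri t c X₁ X₂) : vx e ∈ rts t c X₁ := by
  obtain ⟨h1, h2, h3, h4, h5, -⟩ := mem_tri.1 he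
  exact root_mem h1 h2 ⟨e.2.2, h5.symm⟩

lemma vy_mem {X₁ X₂ : ℝ} {e : Tr} (he : e ∈ tri t c X₁ X₂) : vy e ∈ rts t c X₂ := by
  obtain ⟨h1, h2, h3, h4, h5, -⟩ := mem_tri.1 he
  exact root_mem h3 h4 ⟨e.1, by rw [← h5, mul_comm]⟩

lemma tri_mono {X₁ X₂ Y₁ Y₂ : ℝ} (h1 : X₁ ≤ Y₁) (h2 : X₂ ≤ Y₂) :
    tri t c X₁ X₂ ⊆ tri t c Y₁ Y₂ := by
  intro e he
  obtain ⟨a1, a2, a3, a4, a5, a6⟩ := mem_tri.1 he
  exact mem_tri.2 ⟨a1, a2.trans h1, a3, a4.trans h2, a5, a6⟩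

lemma tri_swap {X₁ X₂ : ℝ} {e : Tr} : (e.2.2, e.2.1, e.1) ∈ tri t c X₂ X₁ ↔
    e ∈ tri t c X₁ X₂ := by
  rw [mem_tri, mem_tri]
  constructor
  · rintro ⟨a1, a2, a3, a4, a5, a6⟩
    exact ⟨a3, a4, a1, a2, by rw [← a5, mul_comm], a6⟩
  · rintro ⟨a1, a2, a3, a4, a5, a6⟩
    exact ⟨a3, a4, a1, a2, by rw [← a5, mul_comm], a6⟩

/-- a triple is determined by its first vertex data `d` and `n` -/
lemma tri_ext {X₁ X₂ Y₁ Y₂ : ℝ} {e f : Tr} (he : e ∈ tri t c X₁ X₂) (hf : f ∈ tri t c Y₁ Y₂)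
    (h1 : e.1 = f.1) (h2 : e.2.1 = f.2.1) : e = f := by
  obtain ⟨a1, a2, a3, a4, a5, a6⟩ := mem_tri.1 he
  obtain ⟨b1, b2, b3, b4, b5, b6⟩ := mem_tri.1 hf
  have h3 : (e.1 : ℤ) * e.2.2 = (e.1 : ℤ) * f.2.2 := by rw [a5, h2, ← b5, h1]
  have h4 : (e.1 : ℤ) ≠ 0 := by
    have : e.1 ≠ 0 := by omega
    exact_mod_cast this
  have h5 : (e.2.2 : ℤ) = f.2.2 := mul_left_cancel₀ h4 h3
  have h6 : e.2.2 = f.2.2 := by exact_mod_cast h5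
  exact Prod.ext h1 (Prod.ext h2 h6)

/-- the discriminant identity -/
lemma disc_tri {X₁ X₂ : ℝ} {e : Tr} (he : e ∈ tri t c X₁ X₂) :
    (2 * e.2.1 + t) ^ 2 = 4 * (e.1 * e.2.2) + (t ^ 2 - 4 * c) := by
  obtain ⟨a1, a2, a3, a4, a5, a6⟩ := mem_tri.1 he
  rw [a5]
  unfold Qp
  ring

/-- moving a divisor of `d` to `d'` -/
lemma move_mem {X₁ X₂ : ℝ} {d q d' : ℕ} {n : ℤ} (hq : 1 ≤ q)
    (he : (d * q, n, d') ∈ tri t c X₁ X₂) : (d, n, d' * q) ∈ tri t c (X₁ / q) (X₂ * q) := by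
  obtain ⟨a1, a2, a3, a4, a5, a6⟩ := mem_tri.1 he
  have hq0 : (0 : ℝ) < q := by exact_mod_cast hq
  simp only at a1 a2 a3 a4 a5 a6
  have hd : 1 ≤ d := by
    rcases Nat.eq_zero_or_pos d with h | h
    · rw [h, zero_mul] at a1; omega
    · exact h
  rw [mem_tri]
  refine ⟨hd, ?_, Nat.mul_pos a3 hq, ?_, ?_, a6⟩
  · rw [le_div_iff₀ hq0]
    push_cast at a2
    exact a2
  · push_cast
    exact mul_le_mul_of_nonneg_right a4 hq0.le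
  · rw [← a5]
    push_cast
    ring

/-- the two triples of the resolution: if `(a, n, b)` is a triple with `0 ≤ 2n+t` and
`x = a + (2n+t) + b` then `(a, n+a, x)` and `(x, n+b, b)` are triples -/
lemma split_eq {a n b : ℤ} (h : a * b = Qp t c n) :
    a * (a + (2 * n + t) + b) = Qp t c (n + a) ∧
    (a + (2 * n + t) + b) * b = Qp t c (n + b) := by
  unfold Qp at *
  constructor
  · linear_combination h
  · linear_combination h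

lemma Spl.prime {p : ℕ} (h : Spl t c p) : p.Prime := h.1

/-- a prime dividing a triple is split or divides twice the discriminant -/
lemma spl_of_dvd {p : ℕ} (hp : p.Prime) {n : ℤ} (h : (p : ℤ) ∣ Qp t c n)
    (h2 : ¬ (p : ℤ) ∣ 2 * (t ^ 2 - 4 * c)) : Spl t c p := ⟨hp, h2, n, h⟩

lemma Good.not_sq (hG : Good t c) {l : ℕ} (hl : l.Prime) {n : ℤ} (h : (l : ℤ) ^ 2 ∣ Qp t c n) :
    Spl t c l := by
  refine spl_of_dvd hl (dvd_trans (dvd_pow_self _ two_ne_zero) h) fun h2 => ?_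
  exact hG.good l hl h2 n h

end Pool.Agent.W78.GT
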